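import Pool.Agent.Lib.helper21.PTWord

/-! Typed polynomial-time computability `PT`, with closure lemmas registered for `fun_prop`.
Natural numbers are encoded in unary, lists and pairs by the self-delimiting pairing. -/

namespace Pool.Agent.Lib.helper21

open Function Turing Polynomial

/-- Types with a chosen encoding by words. -/
class Enc (α : Type) where
  enc : α → List Bool

open Enc

/-- Encoding of lists. -/
def listW {α : Type} (e : α → List Bool) : List α → List Bool
  | [] => [false]
  | a :: l => true :: pairW (e a) (listW e l)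

instance : Enc Unit := ⟨fun _ => []⟩
instance : Enc Bool := ⟨fun b => [b]⟩
instance : Enc ℕ := ⟨fun n => List.replicate n true⟩
instance {α β : Type} [Enc α] [Enc β] : Enc (α × β) := ⟨fun p => pairW (enc p.1) (enc p.2)⟩
instance {α : Type} [Enc α] : Enc (List α) := ⟨listW enc⟩

variable {α β γ σ : Type} [Enc α] [Enc β] [Enc γ] [Enc σ]

/-- Length of the encoding. -/
def sz (a : α) : ℕ := (enc a).length

@[simp] theorem sz_unit (u : Unit) : sz u = 0 := rfl
@[simp] theorem sz_bool (b : Bool) : sz b = 1 := rfl
@[simp] theorem sz_nat (n : ℕ) : sz n = n := List.length_replicate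
@[simp] theorem sz_pair (a : α) (b : β) : sz (a, b) = 2 * sz a + sz b + 1 := length_pairW _ _
@[simp] theorem sz_nil : sz ([] : List α) = 1 := rfl
@[simp] theorem sz_cons (a : α) (l : List α) : sz (a :: l) = 2 * sz a + sz l + 2 := by
  show (true :: pairW (enc a) (enc l)).length = _
  simp [sz]
theorem sz_prod (p : α × β) : sz p = 2 * sz p.1 + sz p.2 + 1 := sz_pair p.1 p.2

theorem sz_append (l m : List α) : sz (l ++ m) + 1 = sz l + sz m := by
  induction l with
  | nil => simp; omega
  | cons a l ih => simp only [List.cons_append, sz_cons]; omega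

theorem sz_mem {l : List α} {a : α} (h : a ∈ l) : sz a ≤ sz l := by
  induction l with
  | nil => simp at h
  | cons b l ih =>
    rcases List.mem_cons.1 h with rfl | h
    · simp only [sz_cons]; omega
    · have := ih h; simp only [sz_cons]; omega

theorem length_le_sz (l : List α) : l.length ≤ sz l := by
  induction l with
  | nil => simp
  | cons b l ih => simp only [sz_cons, List.length_cons]; omega

theorem sz_drop (l : List α) (j : ℕ) : sz (l.drop j) ≤ sz l := by
  have := sz_append (l.take j) (l.drop j)
  rw [List.take_append_drop] at this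
  have h2 : 1 ≤ sz (l.take j) := by cases l.take j <;> simp
  omega

theorem sz_list_le (l : List α) (M : ℕ) (h : ∀ a ∈ l, sz a ≤ M) :
    sz l ≤ l.length * (2 * M + 2) + 1 := by
  induction l with
  | nil => simp
  | cons b l ih =>
    have h1 := h b List.mem_cons_self
    have h2 := ih fun a ha => h a (List.mem_cons_of_mem _ ha)
    rw [sz_cons, List.length_cons, Nat.succ_mul l.length]; omega

/-- `f` is computable in polynomial time. -/
@[fun_prop] def PT (f : α → β) : Prop := Rl enc fun a => enc (f a)

theorem PT.toTM2 {f : α → β} (h : PT f) : Nonempty (TM2ComputableInPolyTime enc enc f) :=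
  Rl.toTM2 h

theorem PT.bd {f : α → β} (h : PT f) : Bd sz fun a => sz (f a) := Rl.bd h

theorem PT.bdNat {f : α → ℕ} (h : PT f) : Bd sz f := h.bd.mono fun a => by simp

theorem PT.of_eq {f g : α → β} (h : PT f) (e : ∀ a, f a = g a) : PT g := by
  have : f = g := funext e
  exact this ▸ h

@[fun_prop] theorem PT.id : PT fun a : α => a := Rl.id _
@[fun_prop] theorem PT.const (b : β) : PT fun _ : α => b := Rl.const _ _
@[fun_prop] theorem PT.comp {f : β → γ} {g : α → β} (hf : PT f) (hg : PT g) :
    PT fun a => f (g a) := Rl.comp hg (Rl.reindex hf g)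
@[fun_prop] theorem PT.pair {f : α → β} {g : α → γ} (hf : PT f) (hg : PT g) :
    PT fun a => (f a, g a) := Rl.fork hf hg
@[fun_prop] theorem PT.fst {f : α → β × γ} (hf : PT f) : PT fun a => (f a).1 :=
  Rl.comp hf (Rl.fstW _ _)
@[fun_prop] theorem PT.snd {f : α → β × γ} (hf : PT f) : PT fun a => (f a).2 :=
  Rl.comp hf (Rl.sndW _ _)
@[fun_prop] theorem PT.size {f : α → β} (hf : PT f) : PT fun a => sz (f a) :=
  Rl.comp hf (Rl.len _)
@[fun_prop] theorem PT.cons {f : α → β} {g : α → List β} (hf : PT f) (hg : PT g) :
    PT fun a => f a :: g a := Rl.cons (Rl.fork hf hg) true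

omit [Enc α] in
theorem Rl.ite {i o : α → List Bool} {b : α → Bool} (hb : Rl i fun a => [b a])
    (h1 : Rl (fun a : {a // b a = true} => i a) fun a => o a)
    (h0 : Rl (fun a : {a // b a = false} => i a) fun a => o a) : Rl i o := by
  refine (hb.consBit (Rl.id i)).comp (Rl.branch ?_ ?_ ?_)
  · exact (Rl.id _).congr fun a => absurd a.2 (by simp)
  · exact h0.reindex fun a : {a // (b a :: i a).head? = some false} => ⟨a, by simpa using a.2⟩
  · exact h1.reindex fun a : {a // (b a :: i a).head? = some true} => ⟨a, by simpa using a.2⟩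

omit [Enc α] in
/-- Reading the first letter. -/
theorem Rl.head {i o : α → List Bool} (h : Rl i o) (φ : Option Bool → Bool) :
    Rl i fun a => [φ (o a).head?] := by
  refine h.comp (Rl.branch ?_ ?_ ?_)
  · exact (Rl.const _ [φ none]).congr fun a => by rw [a.2]
  · exact (Rl.const _ [φ (some false)]).congr fun a => by rw [a.2]
  · exact (Rl.const _ [φ (some true)]).congr fun a => by rw [a.2]

@[fun_prop] theorem PT.cond {c : α → Bool} {f g : α → β} (hc : PT c) (hf : PT f) (hg : PT g) :
    PT fun a => cond (c a) (f a) (g a) := by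
  refine Rl.ite hc ?_ ?_
  · exact (Rl.reindex hf Subtype.val).congr fun a => by beta_reduce; rw [a.2]; rfl
  · exact (Rl.reindex hg Subtype.val).congr fun a => by beta_reduce; rw [a.2]; rfl

@[fun_prop] theorem PT.not {f : α → Bool} (hf : PT f) : PT fun a => !f a :=
  (hf.cond (PT.const false) (PT.const true)).of_eq fun a => by cases f a <;> rfl
@[fun_prop] theorem PT.and {f g : α → Bool} (hf : PT f) (hg : PT g) : PT fun a => (f a && g a) :=
  (hf.cond hg (PT.const false)).of_eq fun a => by cases f a <;> rfl
@[fun_prop] theorem PT.or {f g : α → Bool} (hf : PT f) (hg : PT g) : PT fun a => (f a || g a) :=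
  (hf.cond (PT.const true) hg).of_eq fun a => by cases f a <;> rfl
@[fun_prop] theorem PT.xor {f g : α → Bool} (hf : PT f) (hg : PT g) :
    PT fun a => xor (f a) (g a) :=
  (hf.cond hg.not hg).of_eq fun a => by cases f a <;> simp

@[fun_prop] theorem PT.isEmpty {l : α → List β} (hl : PT l) : PT fun a => (l a).isEmpty :=
  (Rl.head hl fun o => decide (o = some false)).congr fun a => by
    beta_reduce; cases l a <;> rfl

/-- Case distinction on a list. -/
def lcase {β σ : Type} (l : List β) (g0 : σ) (g1 : β → List β → σ) : σ :=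
  match l with
  | [] => g0
  | x :: t => g1 x t

@[fun_prop] theorem PT.lcase {l : α → List β} {g0 : α → σ} {g1 : α → β → List β → σ} (hl : PT l)
    (h0 : PT g0) (h1 : PT fun p : α × β × List β => g1 p.1 p.2.1 p.2.2) :
    PT fun a => lcase (l a) (g0 a) (g1 a) := by
  refine Rl.ite hl.isEmpty ?_ ?_
  · refine (Rl.reindex h0 Subtype.val).congr fun a => ?_
    have := a.2
    rw [List.isEmpty_iff] at this
    beta_reduce
    rw [this]; rfl
  · have hne : ∀ a : {a // (l a).isEmpty = false}, l a ≠ [] := fun a h => by
      have := a.2; simp [h] at this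
    have h2 := Rl.reindex h1 fun a : {a // (l a).isEmpty = false} =>
      (a.1, (l a).head (hne a), (l a).tail)
    have h3 := Rl.fork (Rl.id _) (Rl.tail (Rl.reindex hl
      (Subtype.val : {a // (l a).isEmpty = false} → α)))
    refine (Rl.comp (h3.congr fun a => ?_) h2).congr fun a => ?_
    · generalize hne a = hm
      revert hm
      generalize l a.1 = m
      intro hm
      cases m with
      | nil => exact absurd rfl hm
      | cons x t => rfl
    · beta_reduce
      generalize hne a = hm
      revert hm
      generalize l a.1 = m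
      intro hm
      cases m with
      | nil => exact absurd rfl hm
      | cons x t => rfl

@[fun_prop] theorem PT.tail {l : α → List β} (hl : PT l) : PT fun a => (l a).tail :=
  (hl.lcase (g1 := fun _ _ t => t) (PT.const []) (by fun_prop)).of_eq fun a => by
    cases l a <;> rfl

@[fun_prop] theorem PT.headD {l : α → List β} {d : α → β} (hl : PT l) (hd : PT d) :
    PT fun a => (l a).headD (d a) :=
  (hl.lcase (g1 := fun _ x _ => x) hd (by fun_prop)).of_eq fun a => by cases l a <;> rfl

theorem PT.succ {f : α → ℕ} (hf : PT f) : PT fun a => f a + 1 := Rl.cons hf true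
theorem PT.pred {f : α → ℕ} (hf : PT f) : PT fun a => f a - 1 :=
  (Rl.tail hf).congr fun a => by
    show (List.replicate _ true).tail = List.replicate _ true
    simp
theorem PT.isZero {f : α → ℕ} (hf : PT f) : PT fun a => decide (f a = 0) :=
  (Rl.head hf fun o => decide (o = none)).congr fun a => by
    beta_reduce; cases f a <;> rfl

theorem PT.whileLoop {go : σ → Bool} {step : σ → σ} (hg : PT go) (hs : PT step) {init : α → σ}
    (hi : PT init) (N : α → ℕ) (hgo : ∀ a, ∀ j < N a, go (step^[j] (init a)) = true)
    (hstop : ∀ a, go (step^[N a] (init a)) = false) (hN : Bd sz N) (B : α → ℕ) (hB : Bd sz B)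
    (hsz : ∀ a, ∀ j < N a, sz (step^[j] (init a)) ≤ B a) :
    PT fun a => step^[N a] (init a) :=
  RealT.comp (Rl.consBit (hg.comp hi) hi)
    (RealT.whileLoop enc go step (Rl.reindex (Rl.consBit (hg.comp hs) hs) Subtype.val) sz init N
      hgo hstop hN B hB hsz)

/-- Iteration, with a bound on the sizes of the intermediate states. -/
theorem PT.iterate {f : α → σ → σ} {n : α → ℕ} {init : α → σ}
    (hf : PT fun p : α × σ => f p.1 p.2) (hn : PT n) (hi : PT init) (B : α → ℕ) (hB : Bd sz B)
    (hsz : ∀ a, ∀ j < n a, sz ((f a)^[j] (init a)) ≤ B a) :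
    PT fun a => (f a)^[n a] (init a) := by
  let step : α × σ × ℕ → α × σ × ℕ := fun p => (p.1, f p.1 p.2.1, p.2.2 - 1)
  have hit : ∀ (j : ℕ) (a : α) (s : σ) (m : ℕ), step^[j] (a, s, m) = (a, (f a)^[j] s, m - j) := by
    intro j
    induction j with
    | zero => intros; rfl
    | succ j ih =>
      intro a s m
      rw [iterate_succ_apply, iterate_succ_apply, ih, Nat.sub_sub, Nat.add_comm 1 j]
  have h1 : PT fun p : α × σ × ℕ => p.2.2 := by fun_prop
  have h := PT.whileLoop (go := fun p : α × σ × ℕ => !decide (p.2.2 = 0)) (step := step)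
    h1.isZero.not (PT.pair (by fun_prop) (PT.pair (by fun_prop) h1.pred))
    (init := fun a => (a, init a, n a)) (by fun_prop) n
    (fun a j hj => by simp [hit]; omega) (fun a => by simp [hit]) hn.bdNat
    (fun a => 2 * sz a + 2 * B a + n a + 2)
    (((((Bd.const _ _).mul (Bd.self _)).add ((Bd.const _ _).mul hB)).add hn.bdNat).add
      (Bd.const _ _))
    fun a j hj => by have := hsz a j hj; simp only [hit, sz_pair, sz_nat]; omega
  exact h.snd.fst.of_eq fun a => by simp only [hit]

/-- Iteration of a step that lengthens the state by a polynomial amount. -/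
theorem PT.iterate_add {f : α → σ → σ} {n : α → ℕ} {init : α → σ}
    (hf : PT fun p : α × σ => f p.1 p.2) (hn : PT n) (hi : PT init) (G : α → ℕ) (hG : Bd sz G)
    (h : ∀ a s, sz (f a s) ≤ sz s + G a) : PT fun a => (f a)^[n a] (init a) := by
  refine PT.iterate hf hn hi (fun a => sz (init a) + n a * G a) (hi.bd.add (hn.bdNat.mul hG))
    fun a j hj => ?_
  have : ∀ j, sz ((f a)^[j] (init a)) ≤ sz (init a) + j * G a := by
    intro j
    induction j with
    | zero => simp
    | succ j ih =>
      rw [iterate_succ_apply', Nat.succ_mul]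
      have := h a ((f a)^[j] (init a)); omega
  exact (this j).trans (Nat.add_le_add_left (Nat.mul_le_mul_right _ hj.le) _)

/-- Left fold, with a bound on the sizes of the intermediate states. -/
theorem PT.foldl {f : α → σ → β → σ} {l : α → List β} {init : α → σ}
    (hf : PT fun p : α × σ × β => f p.1 p.2.1 p.2.2) (hl : PT l) (hi : PT init) (B : α → ℕ)
    (hB : Bd sz B) (hsz : ∀ a j, sz (((l a).take j).foldl (f a) (init a)) ≤ B a) :
    PT fun a => (l a).foldl (f a) (init a) := by
  let step : α → σ × List β → σ × List β := fun a p =>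
    helper21.lcase p.2 p fun x t => (f a p.1 x, t)
  have hit : ∀ (j : ℕ) (a : α) (s : σ) (m : List β),
      (step a)^[j] (s, m) = ((m.take j).foldl (f a) s, m.drop j) := by
    intro j
    induction j with
    | zero => intros; rfl
    | succ j ih =>
      intro a s m
      rw [iterate_succ_apply]
      cases m with
      | nil => exact (ih a s []).trans (by simp)
      | cons x t => exact ih a _ t
  have h := PT.iterate (f := step) (n := fun a => sz (l a)) (init := fun a => (init a, l a))
    (by
      have : PT fun p : (α × σ × List β) × β × List β => f p.1.1 p.1.2.1 p.2.1 :=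
        hf.comp (g := fun p : (α × σ × List β) × β × List β => (p.1.1, p.1.2.1, p.2.1))
          (by fun_prop)
      fun_prop) (by fun_prop) (by fun_prop) (fun a => 2 * B a + sz (l a) + 1)
    ((((Bd.const _ _).mul hB).add hl.bd).add (Bd.const _ _))
    fun a j _ => by
      have := hsz a j; have := sz_drop (l a) j
      simp only [hit, sz_pair]; omega
  exact h.fst.of_eq fun a => by simp only [hit, List.take_of_length_le (length_le_sz (l a))]

/-- Left fold of a step that lengthens the state by a polynomial amount. -/
theorem PT.foldl_add {f : α → σ → β → σ} {l : α → List β} {init : α → σ}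
    (hf : PT fun p : α × σ × β => f p.1 p.2.1 p.2.2) (hl : PT l) (hi : PT init)
    (G : α × β → ℕ) (hG : Bd sz G) (h : ∀ a s x, sz (f a s x) ≤ sz s + G (a, x)) :
    PT fun a => (l a).foldl (f a) (init a) := by
  obtain ⟨q, hq⟩ := hG
  refine PT.foldl hf hl hi (fun a => sz (init a) + sz (l a) * q.eval (2 * sz a + sz (l a) + 1))
    (hi.bd.add (hl.bd.mul (Bd.poly ((((Bd.const _ _).mul (Bd.self _)).add hl.bd).add
      (Bd.const _ _)) q))) fun a j => ?_
  have : ∀ (m : List β) (s : σ), (∀ x ∈ m, x ∈ l a) →
      sz (m.foldl (f a) s) ≤ sz s + m.length * q.eval (2 * sz a + sz (l a) + 1) := by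
    intro m
    induction m with
    | nil => simp
    | cons x t ih =>
      intro s hm
      have h1 := ih (f a s x) fun y hy => hm y (List.mem_cons_of_mem _ hy)
      have h2 := h a s x
      have h3 := (hq (a, x)).trans (eval_mono q (n := 2 * sz a + sz (l a) + 1) (by
        have := sz_mem (hm x List.mem_cons_self); simp only [sz_pair]; omega))
      rw [List.foldl_cons, List.length_cons, Nat.succ_mul]; omega
  refine (this _ _ fun x hx => List.mem_of_mem_take hx).trans
    (Nat.add_le_add_left (Nat.mul_le_mul_right _ ?_) _)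
  exact (List.length_take_le' _ _).trans (length_le_sz _)

/-! ### Unary arithmetic -/

@[fun_prop] theorem PT.add {f g : α → ℕ} (hf : PT f) (hg : PT g) : PT fun a => f a + g a :=
  (PT.iterate_add (f := fun _ (s : ℕ) => s + 1) (PT.succ (by fun_prop)) hg hf (fun _ => 1)
    (Bd.const _ _) fun a s => by simp).of_eq fun a => Nat.succ_iterate _ _

@[fun_prop] theorem PT.sub {f g : α → ℕ} (hf : PT f) (hg : PT g) : PT fun a => f a - g a :=
  (PT.iterate_add (f := fun _ (s : ℕ) => s - 1) (PT.pred (by fun_prop)) hg hf (fun _ => 0)
    (Bd.const _ _) fun a s => by simp).of_eq fun a => Nat.pred_iterate _ _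

@[fun_prop] theorem PT.mul {f g : α → ℕ} (hf : PT f) (hg : PT g) : PT fun a => f a * g a :=
  (PT.iterate_add (f := fun a (s : ℕ) => s + f a) (by fun_prop) hg (PT.const 0) f hf.bdNat
    fun a s => by simp).of_eq fun a => by
      induction g a with
      | zero => rfl
      | succ n ih => rw [iterate_succ_apply', ih, Nat.mul_succ]

@[fun_prop] theorem PT.decLe {f g : α → ℕ} (hf : PT f) (hg : PT g) :
    PT fun a => decide (f a ≤ g a) :=
  (hf.sub hg).isZero.of_eq fun a => by simp [Nat.sub_eq_zero_iff_le]

@[fun_prop] theorem PT.decLt {f g : α → ℕ} (hf : PT f) (hg : PT g) :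
    PT fun a => decide (f a < g a) :=
  (hg.decLe hf).not.of_eq fun a => by simp [← Nat.not_le, -not_le]

@[fun_prop] theorem PT.decEq {f g : α → ℕ} (hf : PT f) (hg : PT g) :
    PT fun a => decide (f a = g a) :=
  ((hf.decLe hg).and (hg.decLe hf)).of_eq fun a => by simp [le_antisymm_iff]

/-! ### Lists -/

@[fun_prop] theorem PT.reverse {l : α → List β} (hl : PT l) : PT fun a => (l a).reverse :=
  (PT.foldl_add (f := fun _ (s : List β) x => x :: s) (by fun_prop) hl (PT.const [])
    (fun p => 2 * sz p.2 + 2) (PT.bdNat (by fun_prop))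
    fun a s x => by simp only [sz_cons]; omega).of_eq fun a => by simp

@[fun_prop] theorem PT.append {l m : α → List β} (hl : PT l) (hm : PT m) :
    PT fun a => l a ++ m a :=
  (PT.foldl_add (f := fun _ (s : List β) x => x :: s) (by fun_prop) hl.reverse hm
    (fun p => 2 * sz p.2 + 2) (PT.bdNat (by fun_prop))
    fun a s x => by simp only [sz_cons]; omega).of_eq fun a => by simp

@[fun_prop] theorem PT.flatMap {l : α → List β} {g : α → β → List γ} (hl : PT l)
    (hg : PT fun p : α × β => g p.1 p.2) : PT fun a => (l a).flatMap (g a) := by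
  have h1 : PT fun p : α × List γ × β => g p.1 p.2.2 :=
    hg.comp (g := fun p : α × List γ × β => (p.1, p.2.2)) (by fun_prop)
  refine (PT.foldl_add (f := fun a (s : List γ) x => s ++ g a x) (by fun_prop) hl (PT.const [])
    (fun p => sz (g p.1 p.2)) hg.bd fun a s x => ?_).of_eq fun a => ?_
  · have := sz_append s (g a x); dsimp only; omega
  · have : ∀ (m : List β) (s : List γ),
        m.foldl (fun s x => s ++ g a x) s = s ++ m.flatMap (g a) := by
      intro m; induction m with
      | nil => simp
      | cons x t ih => intro s; simp [ih]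
    simpa using this (l a) []

@[fun_prop] theorem PT.map {l : α → List β} {g : α → β → γ} (hl : PT l)
    (hg : PT fun p : α × β => g p.1 p.2) : PT fun a => (l a).map (g a) :=
  (hl.flatMap (g := fun a x => [g a x]) (by fun_prop)).of_eq fun a => by
    induction l a with
    | nil => rfl
    | cons x t ih => simp [ih]

@[fun_prop] theorem PT.filter {l : α → List β} {g : α → β → Bool} (hl : PT l)
    (hg : PT fun p : α × β => g p.1 p.2) : PT fun a => (l a).filter (g a) :=
  (hl.flatMap (g := fun a x => _root_.cond (g a x) [x] []) (by fun_prop)).of_eq fun a => by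
    induction l a with
    | nil => rfl
    | cons x t ih => cases h : g a x <;> simp [h, ← ih]

@[fun_prop] theorem PT.flatten {l : α → List (List β)} (hl : PT l) : PT fun a => (l a).flatten :=
  (hl.flatMap (g := fun _ x => x) (by fun_prop)).of_eq fun a => by simp [List.flatMap_id']

@[fun_prop] theorem PT.length {l : α → List β} (hl : PT l) : PT fun a => (l a).length :=
  (PT.foldl_add (f := fun _ (s : ℕ) _ => s + 1) (by fun_prop) hl (PT.const 0)
    (fun _ => 1) (Bd.const _ _) fun a s x => by simp).of_eq fun a => by simp

@[fun_prop] theorem PT.sumNat {l : α → List ℕ} (hl : PT l) : PT fun a => (l a).sum :=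
  (PT.foldl_add (f := fun _ (s : ℕ) x => s + x) (by fun_prop) hl (PT.const 0)
    (fun p => p.2) (PT.bdNat (by fun_prop)) fun a s x => by simp).of_eq fun a =>
      List.sum_eq_foldl.symm

@[fun_prop] theorem PT.drop {l : α → List β} {n : α → ℕ} (hl : PT l) (hn : PT n) :
    PT fun a => (l a).drop (n a) :=
  (PT.iterate_add (f := fun _ (s : List β) => s.tail) (by fun_prop) hn hl (fun _ => 0)
    (Bd.const _ _) fun a s => by simpa using sz_drop s 1).of_eq fun a => by
      induction n a with
      | zero => rfl
      | succ n ih => rw [iterate_succ_apply', ih, List.tail_drop]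

@[fun_prop] theorem PT.getD {l : α → List β} {n : α → ℕ} {d : α → β} (hl : PT l) (hn : PT n)
    (hd : PT d) : PT fun a => (l a).getD (n a) (d a) :=
  ((hl.drop hn).headD hd).of_eq fun a => by
    simp [List.headD_eq_head?_getD, List.getD_eq_getElem?_getD]

@[fun_prop] theorem PT.range {n : α → ℕ} (hn : PT n) : PT fun a => List.range (n a) := by
  have hit : ∀ j, (fun s : List ℕ => s ++ [s.length])^[j] [] = List.range j := by
    intro j
    induction j with
    | zero => rfl
    | succ j ih => rw [iterate_succ_apply', ih, List.length_range, List.range_succ]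
  refine (PT.iterate (f := fun _ (s : List ℕ) => s ++ [s.length]) (by fun_prop) hn (PT.const [])
    (fun a => n a * (2 * n a + 2) + 1) (PT.bdNat (by fun_prop)) fun a j hj => ?_).of_eq
    fun a => hit _
  rw [hit]
  refine (sz_list_le _ (n a) fun x hx => ?_).trans ?_
  · have := List.mem_range.1 hx; simp; omega
  · rw [List.length_range]
    exact Nat.add_le_add_right (Nat.mul_le_mul_right _ hj.le) _

@[fun_prop] theorem PT.any {l : α → List β} {g : α → β → Bool} (hl : PT l)
    (hg : PT fun p : α × β => g p.1 p.2) : PT fun a => (l a).any (g a) :=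
  (hl.filter hg).isEmpty.not.of_eq fun a => by
    rw [Bool.eq_iff_iff]; simp [List.filter_eq_nil_iff]

@[fun_prop] theorem PT.all {l : α → List β} {g : α → β → Bool} (hl : PT l)
    (hg : PT fun p : α × β => g p.1 p.2) : PT fun a => (l a).all (g a) :=
  (hl.any (g := fun a x => !g a x) hg.not).not.of_eq fun a => by
    rw [Bool.eq_iff_iff]; simp

end Pool.Agent.Lib.helper21
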