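import Pool.Agent.Lib.helper21.PTBasic

/-! Binary arithmetic in polynomial time: `Bn` (binary naturals), `ℤ` (sign and binary
magnitude) and `ℚ` (numerator and binary denominator). -/

namespace Pool.Agent.Lib.helper21

open Function Turing Polynomial Enc

/-- Natural numbers written in binary. -/
structure Bn where
  n : ℕ

instance : Enc Bn := ⟨fun x => x.n.bits⟩
instance : Enc ℤ := ⟨fun z => decide (z < 0) :: z.natAbs.bits⟩
instance : Enc ℚ := ⟨fun q => pairW (enc q.num) q.den.bits⟩

variable {α β γ σ : Type} [Enc α] [Enc β] [Enc γ] [Enc σ]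

@[simp] theorem sz_bn (x : Bn) : sz x = x.n.size := Nat.size_eq_bits_len _
@[simp] theorem sz_int (z : ℤ) : sz z = z.natAbs.size + 1 := by
  show (_ :: z.natAbs.bits).length = _
  rw [List.length_cons, Nat.size_eq_bits_len]

theorem size_add_le (x y : ℕ) : (x + y).size ≤ x.size + y.size + 1 := by
  rw [Nat.size_le]
  have h1 := Nat.lt_size_self x
  have h2 := Nat.lt_size_self y
  have h3 : 2 ^ x.size ≤ 2 ^ (x.size + y.size) := Nat.pow_le_pow_right (by norm_num) (by omega)
  have h4 : 2 ^ y.size ≤ 2 ^ (x.size + y.size) := Nat.pow_le_pow_right (by norm_num) (by omega)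
  rw [pow_succ]; omega

theorem size_mul_le (x y : ℕ) : (x * y).size ≤ x.size + y.size := by
  rw [Nat.size_le, pow_add]
  exact Nat.mul_lt_mul'' (Nat.lt_size_self x) (Nat.lt_size_self y)

theorem size_bit_le (b : Bool) (x : ℕ) : (Nat.bit b x).size ≤ x.size + 1 := by
  by_cases h : Nat.bit b x = 0
  · simp [h]
  · rw [Nat.size_bit h]

theorem size_div2_le (x : ℕ) : (x / 2).size ≤ x.size := Nat.size_le_size (Nat.div_le_self _ _)

/-- Halving. -/
def Bn.half (x : Bn) : Bn := ⟨x.n / 2⟩
/-- Last binary digit. -/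
def Bn.odd (x : Bn) : Bool := x.n.bodd
/-- Zero test. -/
def Bn.isZ (x : Bn) : Bool := decide (x.n = 0)
/-- Appending a binary digit. -/
def Bn.bit (b : Bool) (x : Bn) : Bn := ⟨Nat.bit b x.n⟩

@[fun_prop] theorem PT.half {f : α → Bn} (hf : PT f) : PT fun a => (f a).half :=
  (Rl.tail hf).congr fun a => (Nat.div2_bits_eq_tail (f a).n).symm

@[fun_prop] theorem PT.odd {f : α → Bn} (hf : PT f) : PT fun a => (f a).odd :=
  (Rl.head hf fun o => o.getD false).congr fun a => by
    show [((f a).n.bits.head?).getD false] = [(f a).n.bodd]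
    rw [Nat.bodd_eq_bits_head]
    cases (f a).n.bits <;> rfl

@[fun_prop] theorem PT.isZ {f : α → Bn} (hf : PT f) : PT fun a => (f a).isZ :=
  (Rl.head hf fun o => decide (o = none)).congr fun a => by
    show [decide (((f a).n.bits.head?) = none)] = [decide ((f a).n = 0)]
    congr 2
    rw [List.head?_eq_none_iff, ← List.length_eq_zero_iff, Nat.size_eq_bits_len, Nat.size_eq_zero]

@[fun_prop] theorem PT.bit {b : α → Bool} {f : α → Bn} (hb : PT b) (hf : PT f) :
    PT fun a => Bn.bit (b a) (f a) := by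
  refine Rl.ite (b := fun a => (f a).isZ && !b a) (hf.isZ.and hb.not) ?_ ?_
  · refine (Rl.const _ []).congr fun a => ?_
    have := a.2
    simp only [Bn.isZ, Bool.and_eq_true, decide_eq_true_eq, Bool.not_eq_eq_eq_not,
      Bool.not_true] at this
    show [] = (Nat.bit (b a) (f a).n).bits
    rw [this.1, this.2]; simp
  · refine (Rl.reindex (Rl.consBit hb hf) Subtype.val).congr fun a => ?_
    have := a.2
    show b a :: (f a).n.bits = (Nat.bit (b a) (f a).n).bits
    rw [Nat.bits_append_bit]
    intro h0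
    simpa [Bn.isZ, h0] using this

/-- Value of `n` followed by the digits `acc`. -/
def valB (acc : List Bool) (n : ℕ) : ℕ := acc.foldl (fun n b => Nat.bit b n) n

theorem PT.valB {l : α → List Bool} {f : α → Bn} (hl : PT l) (hf : PT f) :
    PT fun a => Bn.mk (valB (l a) (f a).n) := by
  refine (PT.foldl_add (f := fun _ (s : Bn) x => Bn.bit x s) (by fun_prop) hl hf (fun _ => 1)
    (Bd.const _ _) fun a s x => ?_).of_eq fun a => ?_
  · simpa [Bn.bit] using size_bit_le x s.n
  · unfold helper21.valB
    generalize f a = s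
    induction l a generalizing s with
    | nil => rfl
    | cons x t ih => exact ih _

/-- Integer version of `valB`. -/
def valZ (acc : List Bool) (z : ℤ) : ℤ := acc.foldl (fun z b => 2 * z + b.toNat) z

theorem valZ_cast (acc : List Bool) (n : ℕ) : valZ acc n = valB acc n := by
  unfold valZ valB
  induction acc generalizing n with
  | nil => rfl
  | cons b t ih =>
    rw [List.foldl_cons, List.foldl_cons, ← ih]
    congr 1
    cases b <;> simp [Nat.bit]

theorem valZ_neg (acc : List Bool) (z : ℤ) (h : z < 0) : valZ acc z < 0 := by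
  unfold valZ
  induction acc generalizing z with
  | nil => exact h
  | cons b t ih => exact ih _ (by cases b <;> simp <;> omega)

/-- One step of digit-serial addition (`e = false`) or subtraction (`e = true`). -/
def bstep (e : Bool) (s : Bn × Bn × Bool × List Bool) : Bn × Bn × Bool × List Bool :=
  (s.1.half, s.2.1.half,
    (xor e s.1.odd && s.2.1.odd) || (xor e s.1.odd && s.2.2.1) || (s.2.1.odd && s.2.2.1),
    xor (xor s.1.odd s.2.1.odd) s.2.2.1 :: s.2.2.2)

/-- All steps of digit-serial addition or subtraction. -/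
def brun (e : Bool) (x y : Bn) : Bool × List Bool :=
  ((bstep e)^[sz x + sz y] (x, y, false, [])).2.2

theorem PT.brun (e : Bool) {f g : α → Bn} (hf : PT f) (hg : PT g) :
    PT fun a => brun e (f a) (g a) := by
  refine (PT.iterate_add (f := fun _ => bstep e) (by unfold bstep; fun_prop) (by fun_prop)
    (by fun_prop) (fun _ => 4) (Bd.const _ _) fun a s => ?_).snd.snd
  obtain ⟨x, y, c, l⟩ := s
  have := size_div2_le x.n
  have := size_div2_le y.n
  simp only [bstep, Bn.half, sz_pair, sz_bn, sz_bool, sz_cons]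
  omega

theorem bstep_inv (e : Bool) (j : ℕ) : ∀ (x y : Bn) (c : Bool) (l : List Bool),
    ((bstep e)^[j] (x, y, c, l)).1.n = x.n / 2 ^ j ∧
    ((bstep e)^[j] (x, y, c, l)).2.1.n = y.n / 2 ^ j ∧
    valZ ((bstep e)^[j] (x, y, c, l)).2.2.2 ((x.n / 2 ^ j : ℕ) + cond e (-1) 1 *
      ((y.n / 2 ^ j : ℕ) + ((bstep e)^[j] (x, y, c, l)).2.2.1.toNat)) =
      valZ l (x.n + cond e (-1) 1 * (y.n + c.toNat)) := by
  induction j with
  | zero => intro x y c l; simp
  | succ j ih =>
    intro x y c l
    rw [iterate_succ_apply]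
    obtain ⟨h1, h2, h3⟩ := ih x.half y.half
      ((xor e x.odd && y.odd) || (xor e x.odd && c) || (y.odd && c))
      (xor (xor x.odd y.odd) c :: l)
    have e1 : ∀ x : Bn, x.half.n / 2 ^ j = x.n / 2 ^ (j + 1) := fun x => by
      rw [Bn.half, Nat.div_div_eq_div_mul, pow_succ']
    rw [e1] at h1 h2
    rw [e1, e1] at h3
    refine ⟨h1, h2, h3.trans ?_⟩
    unfold valZ
    rw [List.foldl_cons]
    congr 1
    have hx := Nat.bodd_add_div2 x.n
    have hy := Nat.bodd_add_div2 y.n
    rw [Nat.div2_val] at hx hy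
    simp only [Bn.half, Bn.odd]
    revert hx hy
    cases x.n.bodd <;> cases y.n.bodd <;> cases c <;> cases e <;> simp <;> omega

theorem brun_spec (e : Bool) (x y : Bn) :
    valZ (brun e x y).2 (cond e (-1) 1 * (brun e x y).1.toNat) = x.n + cond e (-1) 1 * y.n := by
  have h := (bstep_inv e (sz x + sz y) x y false []).2.2
  have h1 : x.n / 2 ^ (sz x + sz y) = 0 := Nat.div_eq_of_lt (by
    rw [← Nat.size_le]; simp)
  have h2 : y.n / 2 ^ (sz x + sz y) = 0 := Nat.div_eq_of_lt (by
    rw [← Nat.size_le]; simp)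
  rw [h1, h2] at h
  simpa [valZ, brun] using h

/-- Binary addition. -/
def Bn.add (x y : Bn) : Bn := ⟨x.n + y.n⟩
/-- Binary truncated subtraction. -/
def Bn.sub (x y : Bn) : Bn := ⟨x.n - y.n⟩
/-- Binary comparison. -/
def Bn.lt (x y : Bn) : Bool := decide (x.n < y.n)
/-- Binary multiplication. -/
def Bn.mul (x y : Bn) : Bn := ⟨x.n * y.n⟩

@[fun_prop] theorem PT.bnAdd {f g : α → Bn} (hf : PT f) (hg : PT g) :
    PT fun a => (f a).add (g a) := by
  have h := PT.brun false hf hg
  refine (PT.valB h.snd (f := fun a => Bn.bit (helper21.brun false (f a) (g a)).1 ⟨0⟩)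
    (PT.bit h.fst (PT.const _))).of_eq fun a => ?_
  have h1 := brun_spec false (f a) (g a)
  simp only [cond_false, one_mul] at h1
  rw [valZ_cast] at h1
  unfold Bn.add Bn.bit
  congr 1
  have : Nat.bit (helper21.brun false (f a) (g a)).1 0 =
      (helper21.brun false (f a) (g a)).1.toNat := by
    cases (helper21.brun false (f a) (g a)).1 <;> rfl
  rw [this]; exact_mod_cast h1

theorem brun_lt (x y : Bn) : (brun true x y).1 = x.lt y := by
  have h1 := brun_spec true x y
  unfold Bn.lt
  cases h : (brun true x y).1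
  · rw [h] at h1
    have h2 := valZ_cast (brun true x y).2 0
    simp only [cond_true, Bool.toNat_false, Nat.cast_zero, mul_zero] at h1 h2
    symm; simp only [decide_eq_false_iff_not]; omega
  · rw [h] at h1
    have h2 := valZ_neg (brun true x y).2 (-1) (by norm_num)
    simp only [cond_true, Bool.toNat_true, Nat.cast_one, mul_one] at h1
    symm; simp only [decide_eq_true_eq]; omega

@[fun_prop] theorem PT.bnLt {f g : α → Bn} (hf : PT f) (hg : PT g) :
    PT fun a => (f a).lt (g a) := (PT.brun true hf hg).fst.of_eq fun _ => brun_lt _ _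

@[fun_prop] theorem PT.bnSub {f g : α → Bn} (hf : PT f) (hg : PT g) :
    PT fun a => (f a).sub (g a) := by
  have h := PT.brun true hf hg
  refine (PT.cond (hf.bnLt hg) (PT.const (⟨0⟩ : Bn))
    (PT.valB h.snd (f := fun _ => ⟨0⟩) (PT.const _))).of_eq fun a => ?_
  have h1 := brun_spec true (f a) (g a)
  rw [brun_lt] at h1
  unfold Bn.sub
  cases h2 : (f a).lt (g a)
  · rw [h2] at h1
    have h3 := valZ_cast (helper21.brun true (f a) (g a)).2 0
    simp only [cond_true, Bool.toNat_false, Nat.cast_zero, mul_zero, cond_false] at h1 h3 ⊢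
    congr 1; omega
  · simp only [Bn.lt, decide_eq_true_eq] at h2
    simp only [cond_true]
    congr 1; omega

/-- Binary digits, most significant first. -/
def digs (y : Bn) : List Bool :=
  ((fun s : Bn × List Bool => (s.1.half, s.1.odd :: s.2))^[sz y] (y, [])).2

theorem PT.digs {f : α → Bn} (hf : PT f) : PT fun a => digs (f a) := by
  refine (PT.iterate_add (f := fun _ (s : Bn × List Bool) => (s.1.half, s.1.odd :: s.2))
    (by fun_prop) (by fun_prop) (by fun_prop) (fun _ => 4) (Bd.const _ _) fun a s => ?_).snd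
  obtain ⟨x, l⟩ := s
  have := size_div2_le x.n
  simp only [Bn.half, sz_pair, sz_bn, sz_bool, sz_cons]
  omega

theorem valB_digs (y : Bn) : valB (digs y) 0 = y.n := by
  have key : ∀ (j : ℕ) (x : Bn) (l : List Bool),
      valB ((fun s : Bn × List Bool => (s.1.half, s.1.odd :: s.2))^[j] (x, l)).2 (x.n / 2 ^ j) =
        valB l x.n := by
    intro j
    induction j with
    | zero => intro x l; simp
    | succ j ih =>
      intro x l
      rw [iterate_succ_apply]
      have h := ih x.half (x.odd :: l)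
      rw [Bn.half, Nat.div_div_eq_div_mul, ← pow_succ'] at h
      refine h.trans ?_
      unfold valB
      rw [List.foldl_cons]
      congr 1
      exact Nat.bit_bodd_div2 x.n
  have h := key (sz y) y []
  rw [Nat.div_eq_of_lt (by rw [← Nat.size_le]; simp)] at h
  exact h

@[fun_prop] theorem PT.bnMul {f g : α → Bn} (hf : PT f) (hg : PT g) :
    PT fun a => (f a).mul (g a) := by
  refine (PT.foldl_add
    (f := fun a (s : Bn) x => _root_.cond x ((Bn.bit false s).add (f a)) (Bn.bit false s))
    (by fun_prop) hg.digs (PT.const ⟨0⟩) (fun p => sz (f p.1) + 2) (PT.bdNat (by fun_prop))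
    fun a s x => ?_).of_eq fun a => ?_
  · have := size_bit_le false s.n
    have := size_add_le (Nat.bit false s.n) (f a).n
    cases x <;> simp only [cond_true, cond_false, Bn.add, Bn.bit, sz_bn] <;> omega
  · have key : ∀ (l : List Bool) (m : ℕ),
        l.foldl (fun (s : Bn) x => _root_.cond x ((Bn.bit false s).add (f a)) (Bn.bit false s))
          ⟨(f a).n * m⟩ = ⟨(f a).n * helper21.valB l m⟩ := by
      intro l
      induction l with
      | nil => intro m; rfl
      | cons x t ih =>
        intro m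
        rw [List.foldl_cons]
        refine Eq.trans ?_ (ih (Nat.bit x m))
        congr 1
        cases x <;> simp [Bn.add, Bn.bit, Nat.bit] <;> ring
    have h := key (helper21.digs (g a)) 0
    rw [valB_digs] at h
    exact h

/-! ### Integers -/

/-- Absolute value, in binary. -/
def absB (z : ℤ) : Bn := ⟨z.natAbs⟩
/-- Binary natural number as an integer. -/
def Bn.toZ (x : Bn) : ℤ := x.n
/-- Sign test. -/
def isNeg (z : ℤ) : Bool := decide (z < 0)

@[fun_prop] theorem PT.absB {f : α → ℤ} (hf : PT f) : PT fun a => absB (f a) := Rl.tail hf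
@[fun_prop] theorem PT.isNeg {f : α → ℤ} (hf : PT f) : PT fun a => isNeg (f a) :=
  Rl.head hf fun o => o.getD false
@[fun_prop] theorem PT.toZ {f : α → Bn} (hf : PT f) : PT fun a => (f a).toZ :=
  (Rl.cons hf false).congr fun a => by
    show false :: (f a).n.bits = decide (((f a).n : ℤ) < 0) :: ((f a).n : ℤ).natAbs.bits
    simp

@[fun_prop] theorem PT.intNeg {f : α → ℤ} (hf : PT f) : PT fun a => -f a :=
  (Rl.consBit (b := fun a => !(helper21.isNeg (f a) || (helper21.absB (f a)).isZ))
    (hf.isNeg.or hf.absB.isZ).not hf.absB).congr fun a => by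
    show _ :: (f a).natAbs.bits = decide (-f a < 0) :: (-f a).natAbs.bits
    rw [Int.natAbs_neg]
    congr 1
    rw [Bool.eq_iff_iff]
    simp [helper21.isNeg, helper21.absB, Bn.isZ]
    omega

@[fun_prop] theorem PT.intAdd {f g : α → ℤ} (hf : PT f) (hg : PT g) : PT fun a => f a + g a := by
  let pos : ℤ → Bn := fun z => _root_.cond (helper21.isNeg z) ⟨0⟩ (helper21.absB z)
  let dif : Bn × Bn → ℤ := fun p =>
    _root_.cond (p.1.lt p.2) (-(p.2.sub p.1).toZ) (p.1.sub p.2).toZ
  have h1 : PT pos := by fun_prop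
  have h2 : PT dif := by fun_prop
  have e1 : ∀ z, (pos z).n = z.toNat := fun z => by
    by_cases h : z < 0 <;> simp [pos, helper21.isNeg, helper21.absB, h] <;> omega
  have e2 : ∀ x y, dif (x, y) = x.n - y.n := fun x y => by
    by_cases h : x.n < y.n <;> simp [dif, Bn.lt, Bn.sub, Bn.toZ, h] <;> omega
  refine PT.of_eq (f := fun a => dif ((pos (f a)).add (pos (g a)),
    (pos (-f a)).add (pos (-g a)))) (by fun_prop) fun a => ?_
  simp only [e2, Bn.add, e1]
  omega

@[fun_prop] theorem PT.intSub {f g : α → ℤ} (hf : PT f) (hg : PT g) : PT fun a => f a - g a :=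
  (hf.intAdd hg.intNeg).of_eq fun _ => (sub_eq_add_neg _ _).symm

@[fun_prop] theorem PT.intMul {f g : α → ℤ} (hf : PT f) (hg : PT g) : PT fun a => f a * g a := by
  refine PT.of_eq (f := fun a => _root_.cond (Bool.xor (helper21.isNeg (f a)) (helper21.isNeg (g a)))
    (-((helper21.absB (f a)).mul (helper21.absB (g a))).toZ)
    ((helper21.absB (f a)).mul (helper21.absB (g a))).toZ) (by fun_prop) fun a => ?_
  simp only [helper21.isNeg, helper21.absB, Bn.mul, Bn.toZ, Nat.cast_mul, Int.natCast_natAbs]
  by_cases h1 : f a < 0 <;> by_cases h2 : g a < 0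
  · simp [h1, h2, abs_of_neg]
  · simp [h1, h2, abs_of_neg, abs_of_nonneg (not_lt.1 h2)]
  · simp [h1, h2, abs_of_neg, abs_of_nonneg (not_lt.1 h1)]
  · simp [h1, h2, abs_of_nonneg (not_lt.1 h1), abs_of_nonneg (not_lt.1 h2)]

@[fun_prop] theorem PT.intLt {f g : α → ℤ} (hf : PT f) (hg : PT g) :
    PT fun a => decide (f a < g a) :=
  (hf.intSub hg).isNeg.of_eq fun a => by simp [helper21.isNeg]

@[fun_prop] theorem PT.intLe {f g : α → ℤ} (hf : PT f) (hg : PT g) :
    PT fun a => decide (f a ≤ g a) :=
  (hg.intLt hf).not.of_eq fun a => by rw [Bool.eq_iff_iff]; simp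

@[fun_prop] theorem PT.intEq {f g : α → ℤ} (hf : PT f) (hg : PT g) :
    PT fun a => decide (f a = g a) :=
  ((hf.intLe hg).and (hg.intLe hf)).of_eq fun a => by simp [le_antisymm_iff]

theorem sz_int_add (x y : ℤ) : sz (x + y) ≤ sz x + sz y := by
  have h1 := Nat.size_le_size (Int.natAbs_add_le x y)
  have h2 := size_add_le x.natAbs y.natAbs
  simp only [sz_int]; omega

theorem sz_int_mul (x y : ℤ) : sz (x * y) ≤ sz x + sz y := by
  have h2 := size_mul_le x.natAbs y.natAbs
  simp only [sz_int, Int.natAbs_mul]; omega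

@[fun_prop] theorem PT.natCast {f : α → ℕ} (hf : PT f) : PT fun a => ((f a : ℕ) : ℤ) :=
  (PT.iterate_add (f := fun _ (s : ℤ) => s + 1) (by fun_prop) hf (PT.const 0) (fun _ => sz (1 : ℤ))
    (Bd.const _ _) fun _ s => sz_int_add s 1).of_eq fun a => by
      induction f a with
      | zero => rfl
      | succ n ih => rw [iterate_succ_apply', ih]; simp

@[fun_prop] theorem PT.intPow {f : α → ℤ} {n : α → ℕ} (hf : PT f) (hn : PT n) :
    PT fun a => f a ^ n a :=
  (PT.iterate_add (f := fun a (s : ℤ) => s * f a) (by fun_prop) hn (PT.const 1)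
    (fun a => sz (f a)) hf.bd fun a s => sz_int_mul s _).of_eq fun a => by
      induction n a with
      | zero => simp
      | succ n ih => rw [iterate_succ_apply', ih, pow_succ]

@[fun_prop] theorem PT.intSum {l : α → List ℤ} (hl : PT l) : PT fun a => (l a).sum :=
  (PT.foldl_add (f := fun _ (s : ℤ) x => s + x) (by fun_prop) hl (PT.const 0)
    (fun p => sz p.2) (PT.bdNat (by fun_prop)) fun _ s x => sz_int_add s x).of_eq fun _ =>
      List.sum_eq_foldl.symm

@[fun_prop] theorem PT.intProd {l : α → List ℤ} (hl : PT l) : PT fun a => (l a).prod :=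
  (PT.foldl_add (f := fun _ (s : ℤ) x => s * x) (by fun_prop) hl (PT.const 1)
    (fun p => sz p.2) (PT.bdNat (by fun_prop)) fun _ s x => sz_int_mul s x).of_eq fun _ =>
      List.prod_eq_foldl.symm

@[fun_prop] theorem PT.num {f : α → ℚ} (hf : PT f) : PT fun a => (f a).num :=
  Rl.comp hf (Rl.fstW _ _)

/-- Denominator, as an integer. -/
def denZ (q : ℚ) : ℤ := q.den

@[fun_prop] theorem PT.denZ {f : α → ℚ} (hf : PT f) : PT fun a => denZ (f a) :=
  PT.toZ (f := fun a => Bn.mk (f a).den) (Rl.comp hf (Rl.sndW _ _))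

end Pool.Agent.Lib.helper21
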