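import Mathlib

/-! Stack programs over words of bits, their cost semantics, and their simulation by `TM2`. -/

namespace Pool.Agent.Lib.helper21

open Function Turing

/-- Structured programs acting on finitely many registers, each a stack of bits. -/
inductive Prog (ι : Type) : Type
  | skip : Prog ι
  | push (r : ι) (b : Bool) : Prog ι
  | seq (p q : Prog ι) : Prog ι
  | case (r : ι) (pn : Prog ι) (pb : Bool → Prog ι) : Prog ι
  | loop (r : ι) (pb : Bool → Prog ι) : Prog ι

/-- Register contents. -/
abbrev St (ι : Type) := ι → List Bool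

/-- `Run p s t n`: the program `p` started on `s` stops on `t` within `n` steps. -/
inductive Run {ι : Type} [DecidableEq ι] : Prog ι → St ι → St ι → ℕ → Prop
  | skip (s : St ι) : Run .skip s s 1
  | push (r : ι) (b : Bool) (s : St ι) : Run (.push r b) s (update s r (b :: s r)) 1
  | seq {p q : Prog ι} {s t u : St ι} {m n : ℕ} :
      Run p s t m → Run q t u n → Run (.seq p q) s u (m + n + 1)
  | caseN {r : ι} {pn : Prog ι} {pb : Bool → Prog ι} {s t : St ι} {n : ℕ} :
      s r = [] → Run pn s t n → Run (.case r pn pb) s t (n + 1)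
  | caseC {r : ι} {pn : Prog ι} {pb : Bool → Prog ι} {s t : St ι} {n : ℕ} {b : Bool}
      {l : List Bool} :
      s r = b :: l → Run (pb b) (update s r l) t n → Run (.case r pn pb) s t (n + 1)
  | loopN {r : ι} {pb : Bool → Prog ι} {s : St ι} : s r = [] → Run (.loop r pb) s s 1
  | loopC {r : ι} {pb : Bool → Prog ι} {s t u : St ι} {m n : ℕ} {b : Bool} {l : List Bool} :
      s r = b :: l → Run (pb b) (update s r l) t m → Run (.loop r pb) t u n →
      Run (.loop r pb) s u (m + n + 1)
  | mono {p : Prog ι} {s t : St ι} {m n : ℕ} : Run p s t m → m ≤ n → Run p s t n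

variable {ι κ : Type}

theorem Run.cast [DecidableEq ι] {p : Prog ι} {s t s' t' : St ι} {m n : ℕ} (h : Run p s t m)
    (hs : s = s') (ht : t = t') (hn : m ≤ n) : Run p s' t' n := by
  subst hs ht; exact h.mono hn

/-- Continuations met while running `p` and then `k`. -/
def reach : Prog ι → List (Prog ι) → List (List (Prog ι))
  | .skip, k => [.skip :: k]
  | .push r b, k => [.push r b :: k]
  | .seq p q, k => (.seq p q :: k) :: (reach p (q :: k) ++ reach q k)
  | .case r pn pb, k =>
      (.case r pn pb :: k) :: (reach pn k ++ (reach (pb false) k ++ reach (pb true) k))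
  | .loop r pb, k =>
      (.loop r pb :: k) :: (reach (pb false) (.loop r pb :: k) ++ reach (pb true) (.loop r pb :: k))

theorem self_mem_reach (p : Prog ι) (k : List (Prog ι)) : p :: k ∈ reach p k := by
  cases p <;> simp [reach]

/-- The machine statement attached to a continuation. -/
def stmt {Λ : Type} (mk : List (Prog ι) → Λ) :
    List (Prog ι) → TM2.Stmt (fun _ : ι => Bool) Λ (Option Bool)
  | [] => .load (fun _ => none) .halt
  | .skip :: k => .goto fun _ => mk k
  | .push r b :: k => .push r (fun _ => b) (.goto fun _ => mk k)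
  | .seq p q :: k => .goto fun _ => mk (p :: q :: k)
  | .case r pn pb :: k =>
      .pop r (fun _ o => o) (.goto fun o => mk (o.elim pn pb :: k))
  | .loop r pb :: k =>
      .pop r (fun _ o => o) (.goto fun o => mk (o.elim k fun b => pb b :: .loop r pb :: k))

theorem iter_step {σ : Type} (f : σ → Option σ) (a b : σ) (c : Option σ) (n : ℕ)
    (h : f a = some b) (h2 : (flip bind f)^[n] (some b) = c) :
    (flip bind f)^[n + 1] (some a) = c := by
  rw [iterate_succ_apply]
  have : flip bind f (some a) = some b := h
  rw [this, h2]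

theorem simulate [DecidableEq ι] {Λ : Type} (mk : List (Prog ι) → Λ) (val : Λ → List (Prog ι))
    (L : List (List (Prog ι))) (hL : ∀ k ∈ L, val (mk k) = k) {p : Prog ι} {s t : St ι} {n : ℕ}
    (h : Run p s t n) : ∀ (k : List (Prog ι)) (v : Option Bool), (∀ x ∈ reach p k, x ∈ L) →
      ∃ m ≤ n, ∃ v', (flip bind (TM2.step fun l => stmt mk (val l)))^[m]
        (some ⟨some (mk (p :: k)), v, s⟩) = some ⟨some (mk k), v', t⟩ := by
  induction h with
  | skip s =>
    intro k v hk
    refine ⟨1, le_rfl, v, iter_step _ _ _ _ 0 ?_ rfl⟩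
    simp [hL _ (hk _ (self_mem_reach _ _)), stmt]
  | push r b s =>
    intro k v hk
    refine ⟨1, le_rfl, v, iter_step _ _ _ _ 0 ?_ rfl⟩
    simp [hL _ (hk _ (self_mem_reach _ _)), stmt]
  | @seq p q s t u m n _ _ ih1 ih2 =>
    intro k v hk
    obtain ⟨m1, hm1, v1, e1⟩ := ih1 (q :: k) v fun x hx => hk x (by simp [reach, hx])
    obtain ⟨m2, hm2, v2, e2⟩ := ih2 k v1 fun x hx => hk x (by simp [reach, hx])
    refine ⟨m2 + m1 + 1, by omega, v2, iter_step _ _ ⟨some (mk (p :: q :: k)), v, s⟩ _ _ ?_ ?_⟩
    · simp [hL _ (hk _ (self_mem_reach _ _)), stmt]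
    · rw [iterate_add_apply, e1, e2]
  | @caseN r pn pb s t n hs _ ih =>
    intro k v hk
    obtain ⟨m1, hm1, v1, e1⟩ := ih k none fun x hx => hk x (by simp [reach, hx])
    refine ⟨m1 + 1, by omega, v1, iter_step _ _ _ _ _ ?_ e1⟩
    have : update s r [] = s := by rw [← hs]; exact update_eq_self r s
    simp [hL _ (hk _ (self_mem_reach _ _)), stmt, hs, this]
  | @caseC r pn pb s t n b l hs _ ih =>
    intro k v hk
    obtain ⟨m1, hm1, v1, e1⟩ := ih k (some b) fun x hx => hk x (by
      cases b <;> simp [reach, hx])
    refine ⟨m1 + 1, by omega, v1, iter_step _ _ _ _ _ ?_ e1⟩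
    simp [hL _ (hk _ (self_mem_reach _ _)), stmt, hs]
  | @loopN r pb s hs =>
    intro k v hk
    refine ⟨1, le_rfl, none, iter_step _ _ _ _ 0 ?_ rfl⟩
    have : update s r [] = s := by rw [← hs]; exact update_eq_self r s
    simp [hL _ (hk _ (self_mem_reach _ _)), stmt, hs, this]
  | @loopC r pb s t u m n b l hs _ _ ih1 ih2 =>
    intro k v hk
    obtain ⟨m1, hm1, v1, e1⟩ := ih1 (.loop r pb :: k) (some b) fun x hx => hk x (by
      cases b <;> simp [reach, hx])
    obtain ⟨m2, hm2, v2, e2⟩ := ih2 k v1 hk
    refine ⟨m2 + m1 + 1, by omega, v2,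
      iter_step _ _ ⟨some (mk (pb b :: .loop r pb :: k)), some b, update s r l⟩ _ _ ?_ ?_⟩
    · simp [hL _ (hk _ (self_mem_reach _ _)), stmt, hs]
    · rw [iterate_add_apply, e1, e2]
  | mono _ hmn ih =>
    intro k v hk
    obtain ⟨m1, hm1, v1, e1⟩ := ih k v hk
    exact ⟨m1, hm1.trans hmn, v1, e1⟩

/-- The state with word `x` in the input register and all other registers empty. -/
def st (x : List Bool) : St (Option ι)
  | none => x
  | some _ => []

open Classical in
/-- Label attached to a continuation. -/
noncomputable def mkLab (p : Prog ι) (k : List (Prog ι)) : {k // k ∈ [] :: reach p []} :=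
  if h : k ∈ [] :: reach p [] then ⟨k, h⟩ else ⟨[], List.mem_cons_self⟩

theorem mkLab_val (p : Prog ι) (k : List (Prog ι)) (h : k ∈ [] :: reach p []) :
    (mkLab p k).1 = k := by
  unfold mkLab; rw [dif_pos h]

/-- The Turing machine running a program. -/
noncomputable def machine [Fintype ι] [DecidableEq ι] (p : Prog (Option ι)) : FinTM2 where
  K := Option ι
  k₀ := none
  k₁ := none
  Γ _ := Bool
  Λ := {k // k ∈ [] :: reach p []}
  main := mkLab p [p]
  ΛFin := by classical exact List.Subtype.fintype _
  σ := Option Bool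
  initialState := none
  m l := stmt (mkLab p) l.1

theorem machine_run [Fintype ι] [DecidableEq ι] (p : Prog (Option ι)) (x y : List Bool) (n : ℕ)
    (h : Run p (st x) (st y) n) : Nonempty (TM2OutputsInTime (machine p) x (some y) (n + 1)) := by
  obtain ⟨m, hm, v, e⟩ := simulate (mkLab p) Subtype.val ([] :: reach p []) (mkLab_val p) h [] none
    fun x hx => List.mem_cons_of_mem _ hx
  have hi : initList (machine p) x = ⟨some (mkLab p [p]), none, st x⟩ := by
    unfold initList
    congr 1
    funext k
    cases k <;> rfl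
  have hh : haltList (machine p) y = ⟨none, none, st y⟩ := by
    unfold haltList
    congr 1
    funext k
    cases k <;> rfl
  refine ⟨⟨⟨1 + m, ?_⟩, by show 1 + m ≤ n + 1; omega⟩⟩
  rw [iterate_add_apply, hi, Option.map_some, hh]
  refine (congrArg _ e).trans ?_
  refine iter_step _ _ _ _ 0 ?_ rfl
  show TM2.step _ _ = _
  simp [machine, mkLab_val p [] List.mem_cons_self, stmt]
  rfl

/-- Renaming of registers. -/
def Prog.map (f : ι → κ) : Prog ι → Prog κ
  | .skip => .skip
  | .push r b => .push (f r) b
  | .seq p q => .seq (p.map f) (q.map f)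
  | .case r pn pb => .case (f r) (pn.map f) fun b => (pb b).map f
  | .loop r pb => .loop (f r) fun b => (pb b).map f

theorem extend_update [DecidableEq ι] [DecidableEq κ] {f : ι → κ} (hf : Injective f) (s : St ι)
    (e : St κ) (r : ι) (w : List Bool) :
    update (extend f s e) (f r) w = extend f (update s r w) e := by
  funext k
  by_cases hk : ∃ a, f a = k
  · obtain ⟨a, rfl⟩ := hk
    rw [hf.extend_apply]
    by_cases h : a = r
    · subst h; simp
    · rw [update_of_ne (hf.ne h), update_of_ne h, hf.extend_apply]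
  · have : k ≠ f r := fun h => hk ⟨r, h.symm⟩
    rw [update_of_ne this, extend_apply' _ _ _ hk, extend_apply' _ _ _ hk]

theorem Run.map [DecidableEq ι] [DecidableEq κ] {f : ι → κ} (hf : Injective f) (e : St κ)
    {p : Prog ι} {s t : St ι} {n : ℕ} (h : Run p s t n) :
    Run (p.map f) (extend f s e) (extend f t e) n := by
  induction h with
  | skip s => exact Run.skip _
  | push r b s =>
    refine (Run.push (f r) b _).cast rfl ?_ le_rfl
    rw [extend_update hf, hf.extend_apply]
  | seq _ _ ih1 ih2 => exact ih1.seq ih2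
  | caseN hs _ ih => exact Run.caseN (by rw [hf.extend_apply, hs]) ih
  | caseC hs _ ih =>
    exact Run.caseC (by rw [hf.extend_apply, hs]) (by rw [extend_update hf]; exact ih)
  | loopN hs => exact Run.loopN (by rw [hf.extend_apply, hs])
  | loopC hs _ _ ih1 ih2 =>
    exact Run.loopC (by rw [hf.extend_apply, hs]) (by rw [extend_update hf]; exact ih1) ih2
  | mono _ hmn ih => exact ih.mono hmn

/-- A run lengthens each register by at most its number of steps. -/
theorem Run.length_le [DecidableEq ι] {p : Prog ι} {s t : St ι} {n : ℕ} (h : Run p s t n) (r : ι) :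
    (t r).length ≤ (s r).length + n := by
  induction h with
  | skip s => omega
  | push r' b s =>
    by_cases h : r = r'
    · subst h; simp
    · rw [update_of_ne h]; omega
  | seq _ _ ih1 ih2 => omega
  | caseN hs _ ih => omega
  | @caseC r' pn pb s t n b l hs _ ih =>
    by_cases h : r = r'
    · subst h; simp [hs] at ih ⊢; omega
    · rw [update_of_ne h] at ih; omega
  | loopN hs => omega
  | @loopC r' pb s t u m n b l hs _ _ ih1 ih2 =>
    by_cases h : r = r'
    · subst h; simp [hs] at ih1 ⊢; omega
    · rw [update_of_ne h] at ih1; omega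
  | mono _ hmn ih => omega

end Pool.Agent.Lib.helper21
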