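import Pool.Agent.Lib.helper21.PTMach

/-! Polynomial-time realisability of families of words, and its closure properties. -/

namespace Pool.Agent.Lib.helper21

open Function Turing Polynomial

variable {α β ι κ : Type}

/-- `o` is bounded by a polynomial in `i`. -/
def Bd (i o : α → ℕ) : Prop := ∃ q : Polynomial ℕ, ∀ a, o a ≤ q.eval (i a)

theorem eval_mono (q : Polynomial ℕ) {m n : ℕ} (h : m ≤ n) : q.eval m ≤ q.eval n := by
  induction q using Polynomial.induction_on' with
  | add p q hp hq => simp only [eval_add]; omega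
  | monomial k c =>
    simp only [eval_monomial]
    exact Nat.mul_le_mul_left _ (Nat.pow_le_pow_left h _)

theorem Bd.self (i : α → ℕ) : Bd i i := ⟨X, fun a => by simp⟩
theorem Bd.const (i : α → ℕ) (c : ℕ) : Bd i fun _ => c := ⟨C c, fun a => by simp⟩
theorem Bd.add {i f g : α → ℕ} (hf : Bd i f) (hg : Bd i g) : Bd i fun a => f a + g a := by
  obtain ⟨p, hp⟩ := hf
  obtain ⟨q, hq⟩ := hg
  exact ⟨p + q, fun a => by simp only [eval_add]; exact add_le_add (hp a) (hq a)⟩
theorem Bd.mul {i f g : α → ℕ} (hf : Bd i f) (hg : Bd i g) : Bd i fun a => f a * g a := by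
  obtain ⟨p, hp⟩ := hf
  obtain ⟨q, hq⟩ := hg
  exact ⟨p * q, fun a => by simp only [eval_mul]; exact Nat.mul_le_mul (hp a) (hq a)⟩
theorem Bd.mono {i f g : α → ℕ} (hg : Bd i g) (h : ∀ a, f a ≤ g a) : Bd i f := by
  obtain ⟨q, hq⟩ := hg
  exact ⟨q, fun a => (h a).trans (hq a)⟩
theorem Bd.poly {i f : α → ℕ} (hf : Bd i f) (q : Polynomial ℕ) : Bd i fun a => q.eval (f a) := by
  obtain ⟨p, hp⟩ := hf
  exact ⟨q.comp p, fun a => by rw [eval_comp]; exact eval_mono q (hp a)⟩
theorem Bd.trans {i f g : α → ℕ} (hf : Bd i f) (hg : Bd f g) : Bd i g := by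
  obtain ⟨q, hq⟩ := hg
  exact (hf.poly q).mono hq
theorem Bd.reindex {i f : α → ℕ} (hf : Bd i f) (g : β → α) :
    Bd (fun b => i (g b)) fun b => f (g b) := by
  obtain ⟨q, hq⟩ := hf
  exact ⟨q, fun b => hq _⟩

/-- One program turns `i a` into `o a`, in time polynomial in `sz a`. -/
def RealT (sz : α → ℕ) (i o : α → List Bool) : Prop :=
  ∃ (ι : Type) (_ : Fintype ι) (_ : DecidableEq ι) (p : Prog (Option ι)) (T : α → ℕ),
    Bd sz T ∧ ∀ a, Run p (st (i a)) (st (o a)) (T a)

/-- One program turns `i a` into `o a`, in time polynomial in the length of `i a`. -/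
def Rl (i o : α → List Bool) : Prop := RealT (fun a => (i a).length) i o

theorem update_st [DecidableEq ι] (x y : List Bool) :
    update (st x : St (Option ι)) none y = st y := by
  funext k; cases k <;> simp [st]

theorem Run.lift [DecidableEq ι] [DecidableEq κ] {p : Prog (Option ι)} {x y : List Bool} {n : ℕ}
    (h : Run p (st x) (st y) n) {f : ι → κ} (hf : Injective f) (e : St (Option κ))
    (he : ∀ j, e (some (f j)) = []) (hx : e none = x) :
    Run (p.map (Option.map f)) e (update e none y) n := by
  have hf' : Injective (Option.map f) := Option.map_injective hf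
  refine (h.map hf' e).cast ?_ ?_ le_rfl
  · funext k
    by_cases hk : ∃ a, Option.map f a = k
    · obtain ⟨a, rfl⟩ := hk
      rw [hf'.extend_apply]
      cases a with
      | none => exact hx.symm
      | some j => exact (he j).symm
    · rw [extend_apply' _ _ _ hk]
  · funext k
    by_cases hk : ∃ a, Option.map f a = k
    · obtain ⟨a, rfl⟩ := hk
      rw [hf'.extend_apply]
      cases a with
      | none => simp [st]
      | some j => simp [st, he j]
    · have : k ≠ none := fun h => hk ⟨none, h.symm⟩
      rw [extend_apply' _ _ _ hk, update_of_ne this]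

theorem Run.lift_st [DecidableEq ι] [DecidableEq κ] {p : Prog (Option ι)} {x y : List Bool} {n : ℕ}
    (h : Run p (st x) (st y) n) {f : ι → κ} (hf : Injective f) :
    Run (p.map (Option.map f)) (st x) (st y) n :=
  (h.lift hf (st x) (fun _ => rfl) rfl).cast rfl (update_st x y) le_rfl

section Basic
variable {sz sz' : α → ℕ} {i m o o' : α → List Bool}

theorem RealT.congr (h : RealT sz i o) (ho : ∀ a, o a = o' a) : RealT sz i o' := by
  have : o = o' := funext ho
  exact this ▸ h

theorem RealT.size (h : RealT sz i o) (hs : Bd sz' sz) : RealT sz' i o := by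
  obtain ⟨ι, _, _, p, T, hT, hp⟩ := h
  exact ⟨ι, inferInstance, inferInstance, p, T, hs.trans hT, hp⟩

theorem RealT.reindex (h : RealT sz i o) (g : β → α) :
    RealT (fun b => sz (g b)) (fun b => i (g b)) fun b => o (g b) := by
  obtain ⟨ι, _, _, p, T, hT, hp⟩ := h
  exact ⟨ι, inferInstance, inferInstance, p, fun b => T (g b), hT.reindex g, fun b => hp _⟩

theorem RealT.comp (h1 : RealT sz i m) (h2 : RealT sz m o) : RealT sz i o := by
  obtain ⟨ι, _, _, p, T, hT, hp⟩ := h1
  obtain ⟨κ, _, _, q, U, hU, hq⟩ := h2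
  exact ⟨ι ⊕ κ, inferInstance, inferInstance,
    .seq (p.map (Option.map Sum.inl)) (q.map (Option.map Sum.inr)), fun a => T a + U a + 1,
    (hT.add hU).add (Bd.const _ _),
    fun a => ((hp a).lift_st Sum.inl_injective).seq ((hq a).lift_st Sum.inr_injective)⟩

theorem RealT.bd (h : RealT sz i o) (hi : Bd sz fun a => (i a).length) :
    Bd sz fun a => (o a).length := by
  obtain ⟨ι, _, _, p, T, hT, hp⟩ := h
  exact (hi.add hT).mono fun a => (hp a).length_le none

theorem Rl.bd (h : Rl i o) : Bd (fun a => (i a).length) fun a => (o a).length :=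
  RealT.bd h (Bd.self _)

theorem Rl.congr (h : Rl i o) (ho : ∀ a, o a = o' a) : Rl i o' := RealT.congr h ho

theorem Rl.reindex (h : Rl i o) (g : β → α) : Rl (fun b => i (g b)) fun b => o (g b) :=
  RealT.reindex h g

theorem Rl.comp (h1 : Rl i m) (h2 : Rl m o) : Rl i o :=
  RealT.comp h1 (RealT.size h2 h1.bd)

theorem Rl.id (i : α → List Bool) : Rl i i :=
  ⟨Unit, inferInstance, inferInstance, .skip, fun _ => 1, Bd.const _ _, fun _ => Run.skip _⟩

theorem Rl.push (i : α → List Bool) (b : Bool) : Rl i fun a => b :: i a :=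
  ⟨Unit, inferInstance, inferInstance, .push none b, fun _ => 1, Bd.const _ _,
    fun _ => (Run.push none b _).cast rfl (update_st _ _) le_rfl⟩

theorem Rl.cons (h : Rl i o) (b : Bool) : Rl i fun a => b :: o a := h.comp (Rl.push o b)

/-- Three-way branching on the first letter of the input, which is removed. -/
theorem RealT.branch
    (h0 : RealT (fun a : {a // (i a).head? = none} => sz a) (fun a => (i a).tail) fun a => o a)
    (h1 : RealT (fun a : {a // (i a).head? = some false} => sz a) (fun a => (i a).tail)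
      fun a => o a)
    (h2 : RealT (fun a : {a // (i a).head? = some true} => sz a) (fun a => (i a).tail)
      fun a => o a) : RealT sz i o := by
  obtain ⟨ι0, _, _, p0, T0, ⟨q0, hT0⟩, hp0⟩ := h0
  obtain ⟨ι1, _, _, p1, T1, ⟨q1, hT1⟩, hp1⟩ := h1
  obtain ⟨ι2, _, _, p2, T2, ⟨q2, hT2⟩, hp2⟩ := h2
  refine ⟨ι0 ⊕ ι1 ⊕ ι2, inferInstance, inferInstance,
    .case none (p0.map (Option.map Sum.inl)) fun b =>
      cond b (p2.map (Option.map (Sum.inr ∘ Sum.inr))) (p1.map (Option.map (Sum.inr ∘ Sum.inl))),
    fun a => q0.eval (sz a) + q1.eval (sz a) + q2.eval (sz a) + 1,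
    ((((Bd.self _).poly _).add ((Bd.self _).poly _)).add ((Bd.self _).poly _)).add (Bd.const _ _),
    fun a => ?_⟩
  cases hi : i a with
  | nil =>
    have h := (hp0 ⟨a, by simp [hi]⟩).lift_st (κ := ι0 ⊕ ι1 ⊕ ι2) Sum.inl_injective
    have hT := hT0 ⟨a, by simp [hi]⟩
    simp only [hi, List.tail_nil] at h hT
    exact Run.mono (Run.caseN rfl h) (by beta_reduce; omega)
  | cons b l =>
    cases b with
    | false =>
      have h := (hp1 ⟨a, by simp [hi]⟩).lift_st (κ := ι0 ⊕ ι1 ⊕ ι2)
        (Sum.inr_injective.comp Sum.inl_injective)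
      have hT := hT1 ⟨a, by simp [hi]⟩
      simp only [hi, List.tail_cons] at h hT
      exact Run.mono (Run.caseC (l := l) (b := false) rfl (h.cast (update_st _ _).symm rfl le_rfl))
        (by beta_reduce; omega)
    | true =>
      have h := (hp2 ⟨a, by simp [hi]⟩).lift_st (κ := ι0 ⊕ ι1 ⊕ ι2)
        (Sum.inr_injective.comp Sum.inr_injective)
      have hT := hT2 ⟨a, by simp [hi]⟩
      simp only [hi, List.tail_cons] at h hT
      exact Run.mono (Run.caseC (l := l) (b := true) rfl (h.cast (update_st _ _).symm rfl le_rfl))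
        (by beta_reduce; omega)

theorem Rl.branch
    (h0 : Rl (fun a : {a // (i a).head? = none} => (i a).tail) fun a => o a)
    (h1 : Rl (fun a : {a // (i a).head? = some false} => (i a).tail) fun a => o a)
    (h2 : Rl (fun a : {a // (i a).head? = some true} => (i a).tail) fun a => o a) : Rl i o :=
  RealT.branch (RealT.size h0 ((Bd.self _).mono fun a => by simp))
    (RealT.size h1 ((Bd.self _).mono fun a => by simp))
    (RealT.size h2 ((Bd.self _).mono fun a => by simp))

theorem Rl.tail (h : Rl i o) : Rl i fun a => (o a).tail :=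
  h.comp (Rl.branch (Rl.id _) (Rl.id _) (Rl.id _))

end Basic

/-- Write a fixed word on top of a register. -/
def pushes (r : ι) : List Bool → Prog ι
  | [] => .skip
  | b :: w => .seq (pushes r w) (.push r b)

theorem run_pushes [DecidableEq ι] (r : ι) (w : List Bool) (s : St ι) :
    Run (pushes r w) s (update s r (w ++ s r)) (2 * w.length + 1) := by
  induction w with
  | nil => exact (Run.skip s).cast rfl (by simp) le_rfl
  | cons b w ih => exact (ih.seq (Run.push r b _)).cast rfl (by simp) (by simp; omega)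

/-- Empty register `r`, writing for each letter a word on `s` and a word on `t`. -/
def mv (r s t : ι) (g h : Bool → List Bool) : Prog ι :=
  .loop r fun b => .seq (pushes s (g b)) (pushes t (h b))

theorem run_mv [DecidableEq ι] {r s t : ι} (hrs : r ≠ s) (hrt : r ≠ t) (hst : s ≠ t)
    (g h : Bool → List Bool) (hg : ∀ b, (g b).length ≤ 2) (hh : ∀ b, (h b).length ≤ 2)
    (x : List Bool) : ∀ σ : St ι, σ r = x → Run (mv r s t g h) σ
      (update (update (update σ r []) s (x.reverse.flatMap g ++ σ s)) t
        (x.reverse.flatMap h ++ σ t)) (12 * x.length + 1) := by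
  induction x with
  | nil =>
    intro σ hσ
    refine (Run.loopN hσ).cast rfl ?_ le_rfl
    have : update σ r [] = σ := by rw [← hσ]; exact update_eq_self r σ
    simp [this]
  | cons b x ih =>
    intro σ hσ
    refine (Run.loopC hσ ((run_pushes s (g b) _).seq (run_pushes t (h b) _))
      (ih _ ?_)).cast rfl ?_ ?_
    · simp [hrs, hrt]
    · funext k
      by_cases h1 : k = t
      · subst h1; simp [hrt.symm, hst.symm]
      · by_cases h2 : k = s
        · subst h2; simp [h1, hrs.symm]
        · by_cases h3 : k = r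
          · subst h3; simp [h1, h2]
          · simp [h1, h2, h3]
    · have := hg b; have := hh b; simp only [List.length_cons]; omega

/-- States with three visible work registers. -/
def S4 {μ : Type} (x a b c : List Bool) : St (Option (μ ⊕ Fin 3))
  | none => x
  | some (.inl _) => []
  | some (.inr j) => ![a, b, c] j

section S4
variable {μ : Type} [DecidableEq μ] (x a b c y : List Bool)

/-- The work registers. -/
abbrev rg {μ : Type} (j : Fin 3) : Option (μ ⊕ Fin 3) := some (.inr j)

omit [DecidableEq μ] in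
theorem st_eq_S4 : (st x : St (Option (μ ⊕ Fin 3))) = S4 x [] [] [] := by
  funext k
  rcases k with _ | _ | j
  · rfl
  · rfl
  · fin_cases j <;> rfl

@[simp] theorem S4_up : update (S4 x a b c : St (Option (μ ⊕ Fin 3))) none y = S4 y a b c := by
  funext k
  rcases k with _ | _ | j <;> simp [S4]
@[simp] theorem S4_up0 : update (S4 x a b c : St (Option (μ ⊕ Fin 3))) (rg 0) y = S4 x y b c := by
  funext k
  rcases k with _ | _ | j
  · simp [S4]
  · simp [S4]
  · fin_cases j <;> simp [S4]
@[simp] theorem S4_up1 : update (S4 x a b c : St (Option (μ ⊕ Fin 3))) (rg 1) y = S4 x a y c := by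
  funext k
  rcases k with _ | _ | j
  · simp [S4]
  · simp [S4]
  · fin_cases j <;> simp [S4]
@[simp] theorem S4_up2 : update (S4 x a b c : St (Option (μ ⊕ Fin 3))) (rg 2) y = S4 x a b y := by
  funext k
  rcases k with _ | _ | j
  · simp [S4]
  · simp [S4]
  · fin_cases j <;> simp [S4]
omit [DecidableEq μ] in
@[simp] theorem S4_n : (S4 x a b c : St (Option (μ ⊕ Fin 3))) none = x := rfl
omit [DecidableEq μ] in
@[simp] theorem S4_0 : (S4 x a b c : St (Option (μ ⊕ Fin 3))) (rg 0) = a := rfl
omit [DecidableEq μ] in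
@[simp] theorem S4_1 : (S4 x a b c : St (Option (μ ⊕ Fin 3))) (rg 1) = b := rfl
omit [DecidableEq μ] in
@[simp] theorem S4_2 : (S4 x a b c : St (Option (μ ⊕ Fin 3))) (rg 2) = c := rfl

end S4

/-- Self-delimiting pairing of words. -/
def pairW (x y : List Bool) : List Bool := x.flatMap (fun c => [true, c]) ++ false :: y

@[simp] theorem length_pairW (x y : List Bool) :
    (pairW x y).length = 2 * x.length + y.length + 1 := by
  unfold pairW
  induction x with
  | nil => simp
  | cons c x ih => simp only [List.flatMap_cons, List.length_append, List.length_cons,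
      List.length_nil] at ih ⊢; omega

theorem flatMap_single (x : List Bool) : x.flatMap (fun b => [b]) = x := by simp

theorem Rl.fork {i o1 o2 : α → List Bool} (h1 : Rl i o1) (h2 : Rl i o2) :
    Rl i fun a => pairW (o1 a) (o2 a) := by
  have hb := h1.bd
  obtain ⟨ι, _, _, p, T, hT, hp⟩ := h1
  obtain ⟨κ, _, _, q, U, hU, hq⟩ := h2
  let one : Bool → List Bool := fun b => [b]
  let nil : Bool → List Bool := fun _ => []
  have h1 : ∀ b, (one b).length ≤ 2 := fun b => by simp [one]
  have h0 : ∀ b, (nil b).length ≤ 2 := fun b => by simp [nil]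
  have h2 : ∀ b : Bool, [true, b].length ≤ 2 := fun b => by simp
  refine ⟨(ι ⊕ κ) ⊕ Fin 3, inferInstance, inferInstance,
    .seq (mv none (rg 0) (rg 1) one one) <| .seq (mv (rg 0) none (rg 1) one nil) <|
    .seq (p.map (Option.map (Sum.inl ∘ Sum.inl))) <| .seq (mv none (rg 2) (rg 0) one nil) <|
    .seq (mv (rg 1) none (rg 0) one nil) <| .seq (q.map (Option.map (Sum.inl ∘ Sum.inr))) <|
    .seq (.push none false) (mv (rg 2) none (rg 0) (fun b => [true, b]) nil),
    fun a => 36 * (i a).length + 24 * (o1 a).length + T a + U a + 20,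
    (((((Bd.const _ _).mul (Bd.self _)).add ((Bd.const _ _).mul hb)).add hT).add hU).add
      (Bd.const _ _), fun a => ?_⟩
  rw [st_eq_S4, st_eq_S4]
  have e1 := run_mv (r := (none : Option ((ι ⊕ κ) ⊕ Fin 3))) (s := rg 0) (t := rg 1) (by simp)
    (by simp) (by simp) one one h1 h1 (i a) (S4 (i a) [] [] []) rfl
  have e2 := run_mv (r := (rg 0 : Option ((ι ⊕ κ) ⊕ Fin 3))) (s := none) (t := rg 1) (by simp)
    (by simp) (by simp) one nil h1 h0 (i a).reverse (S4 [] (i a).reverse (i a).reverse []) rfl
  have e3 := (hp a).lift (κ := (ι ⊕ κ) ⊕ Fin 3) (Sum.inl_injective.comp Sum.inl_injective)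
    (S4 (i a) [] (i a).reverse []) (fun _ => rfl) rfl
  have e4 := run_mv (r := (none : Option ((ι ⊕ κ) ⊕ Fin 3))) (s := rg 2) (t := rg 0) (by simp)
    (by simp) (by simp) one nil h1 h0 (o1 a) (S4 (o1 a) [] (i a).reverse []) rfl
  have e5 := run_mv (r := (rg 1 : Option ((ι ⊕ κ) ⊕ Fin 3))) (s := none) (t := rg 0) (by simp)
    (by simp) (by simp) one nil h1 h0 (i a).reverse (S4 [] [] (i a).reverse (o1 a).reverse) rfl
  have e6 := (hq a).lift (κ := (ι ⊕ κ) ⊕ Fin 3) (Sum.inl_injective.comp Sum.inr_injective)
    (S4 (i a) [] [] (o1 a).reverse) (fun _ => rfl) rfl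
  have e7 := Run.push (none : Option ((ι ⊕ κ) ⊕ Fin 3)) false (S4 (o2 a) [] [] (o1 a).reverse)
  have e8 := run_mv (r := (rg 2 : Option ((ι ⊕ κ) ⊕ Fin 3))) (s := none) (t := rg 0) (by simp)
    (by simp) (by simp) (fun b => [true, b]) nil h2 h0 (o1 a).reverse
    (S4 (false :: o2 a) [] [] (o1 a).reverse) rfl
  simp only [one, nil, S4_up, S4_up0, S4_up1, S4_up2, S4_n, S4_0, S4_1, S4_2, flatMap_single,
    List.append_nil, List.reverse_reverse, List.flatMap_eq_nil_iff.2 (fun _ _ => rfl),
    List.nil_append, List.length_reverse] at e1 e2 e3 e4 e5 e6 e7 e8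
  exact (e1.seq (e2.seq (e3.seq (e4.seq (e5.seq (e6.seq (e7.seq e8))))))).mono (by beta_reduce; omega)

/-- The loop that splits a pair. -/
def unp {μ : Type} : Prog (Option (μ ⊕ Fin 3)) :=
  .loop (rg 0) fun _ => .case none .skip fun b =>
    cond b (.case none .skip fun c => .seq (.push (rg 1) c) (.push (rg 0) true)) .skip

theorem run_unp {μ : Type} [DecidableEq μ] (x y : List Bool) : ∀ acc : List Bool,
    Run (unp (μ := μ)) (S4 (pairW x y) [true] acc []) (S4 y [] (x.reverse ++ acc) [])
      (6 * x.length + 4) := by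
  induction x with
  | nil =>
    intro acc
    refine Run.mono (Run.loopC (l := []) (b := true) (t := S4 y [] acc []) (m := 2) rfl
      (Run.caseC (l := y) (b := false) rfl ((Run.skip _).cast rfl ?_ le_rfl)) (Run.loopN rfl)) ?_
    · simp
    · simp
  | cons c x ih =>
    intro acc
    have e := ih (c :: acc)
    rw [show x.reverse ++ c :: acc = (c :: x).reverse ++ acc by simp] at e
    refine Run.mono (Run.loopC (l := []) (b := true) (t := S4 (pairW x y) [true] (c :: acc) [])
      (m := 5) rfl (Run.caseC (l := c :: pairW x y) (b := true) rfl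
        (Run.caseC (l := pairW x y) (b := c) rfl
          (((Run.push _ _ _).seq (Run.push _ _ _)).cast rfl ?_ le_rfl))) e) ?_
    · simp
    · simp only [List.length_cons]; omega

theorem Rl.fstW (x y : α → List Bool) : Rl (fun a => pairW (x a) (y a)) x := by
  let one : Bool → List Bool := fun b => [b]
  let nil : Bool → List Bool := fun _ => []
  have h1 : ∀ b, (one b).length ≤ 2 := fun b => by simp [one]
  have h0 : ∀ b, (nil b).length ≤ 2 := fun b => by simp [nil]
  refine ⟨Unit ⊕ Fin 3, inferInstance, inferInstance,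
    .seq (.push (rg 0) true) <| .seq unp <| .seq (mv none (rg 0) (rg 1) nil nil)
      (mv (rg 1) none (rg 0) one nil),
    fun a => 12 * (pairW (x a) (y a)).length + 20,
    ((Bd.const _ _).mul (Bd.self _)).add (Bd.const _ _), fun a => ?_⟩
  rw [st_eq_S4, st_eq_S4]
  have e1 := Run.push (rg 0 : Option (Unit ⊕ Fin 3)) true (S4 (pairW (x a) (y a)) [] [] [])
  have e2 := run_unp (μ := Unit) (x a) (y a) []
  have e3 := run_mv (r := (none : Option (Unit ⊕ Fin 3))) (s := rg 0) (t := rg 1) (by simp)
    (by simp) (by simp) nil nil h0 h0 (y a) (S4 (y a) [] (x a).reverse []) rfl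
  have e4 := run_mv (r := (rg 1 : Option (Unit ⊕ Fin 3))) (s := none) (t := rg 0) (by simp)
    (by simp) (by simp) one nil h1 h0 (x a).reverse (S4 [] [] (x a).reverse []) rfl
  simp only [one, nil, S4_up, S4_up0, S4_up1, S4_n, S4_0, S4_1, flatMap_single,
    List.append_nil, List.reverse_reverse, List.flatMap_eq_nil_iff.2 (fun _ _ => rfl),
    List.nil_append, List.length_reverse] at e1 e2 e3 e4
  exact (e1.seq (e2.seq (e3.seq e4))).mono (by simp only [length_pairW]; omega)

theorem Rl.sndW (x y : α → List Bool) : Rl (fun a => pairW (x a) (y a)) y := by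
  let nil : Bool → List Bool := fun _ => []
  have h0 : ∀ b, (nil b).length ≤ 2 := fun b => by simp [nil]
  refine ⟨Unit ⊕ Fin 3, inferInstance, inferInstance,
    .seq (.push (rg 0) true) <| .seq unp (mv (rg 1) none (rg 0) nil nil),
    fun a => 12 * (pairW (x a) (y a)).length + 20,
    ((Bd.const _ _).mul (Bd.self _)).add (Bd.const _ _), fun a => ?_⟩
  rw [st_eq_S4, st_eq_S4]
  have e1 := Run.push (rg 0 : Option (Unit ⊕ Fin 3)) true (S4 (pairW (x a) (y a)) [] [] [])
  have e2 := run_unp (μ := Unit) (x a) (y a) []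
  have e4 := run_mv (r := (rg 1 : Option (Unit ⊕ Fin 3))) (s := none) (t := rg 0) (by simp)
    (by simp) (by simp) nil nil h0 h0 (x a).reverse (S4 (y a) [] (x a).reverse []) rfl
  simp only [nil, S4_up, S4_up0, S4_up1, S4_n, S4_0,
    List.append_nil, List.flatMap_eq_nil_iff.2 (fun _ _ => rfl),
    List.nil_append, List.length_reverse] at e1 e2 e4
  exact (e1.seq (e2.seq e4)).mono (by simp only [length_pairW]; omega)

theorem Rl.clear (i : α → List Bool) : Rl i fun _ => [] := by
  let nil : Bool → List Bool := fun _ => []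
  have h0 : ∀ b, (nil b).length ≤ 2 := fun b => by simp [nil]
  refine ⟨Unit ⊕ Fin 3, inferInstance, inferInstance, mv none (rg 0) (rg 1) nil nil,
    fun a => 12 * (i a).length + 1,
    ((Bd.const _ _).mul (Bd.self _)).add (Bd.const _ _), fun a => ?_⟩
  rw [st_eq_S4, st_eq_S4]
  have e3 := run_mv (r := (none : Option (Unit ⊕ Fin 3))) (s := rg 0) (t := rg 1) (by simp)
    (by simp) (by simp) nil nil h0 h0 (i a) (S4 (i a) [] [] []) rfl
  simp only [nil, S4_up, S4_up0, S4_up1, S4_0, S4_1,
    List.append_nil, List.flatMap_eq_nil_iff.2 (fun _ _ => rfl)] at e3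
  exact e3

theorem Rl.const (i : α → List Bool) (w : List Bool) : Rl i fun _ => w := by
  induction w with
  | nil => exact Rl.clear i
  | cons b w ih => exact ih.cons b

theorem Rl.len (i : α → List Bool) : Rl i fun a => List.replicate (i a).length true := by
  let one : Bool → List Bool := fun _ => [true]
  let nil : Bool → List Bool := fun _ => []
  have h1 : ∀ b, (one b).length ≤ 2 := fun b => by simp [one]
  have h0 : ∀ b, (nil b).length ≤ 2 := fun b => by simp [nil]
  have hr : ∀ l : List Bool, l.flatMap (fun _ => [true]) = List.replicate l.length true := by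
    intro l; induction l with
    | nil => rfl
    | cons b l ih => simp [List.replicate_succ, ih]
  refine ⟨Unit ⊕ Fin 3, inferInstance, inferInstance,
    .seq (mv none (rg 0) (rg 1) one nil) (mv (rg 0) none (rg 1) one nil),
    fun a => 24 * (i a).length + 3,
    ((Bd.const _ _).mul (Bd.self _)).add (Bd.const _ _), fun a => ?_⟩
  rw [st_eq_S4, st_eq_S4]
  have e3 := run_mv (r := (none : Option (Unit ⊕ Fin 3))) (s := rg 0) (t := rg 1) (by simp)
    (by simp) (by simp) one nil h1 h0 (i a) (S4 (i a) [] [] []) rfl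
  have e4 := run_mv (r := (rg 0 : Option (Unit ⊕ Fin 3))) (s := none) (t := rg 1) (by simp)
    (by simp) (by simp) one nil h1 h0 (List.replicate (i a).length true)
    (S4 [] (List.replicate (i a).length true) [] []) rfl
  simp only [one, nil, S4_up, S4_up0, S4_up1, S4_n, S4_0, S4_1, hr,
    List.append_nil, List.flatMap_eq_nil_iff.2 (fun _ _ => rfl),
    List.length_reverse, List.length_replicate] at e3 e4
  exact (e3.seq e4).mono (by beta_reduce; omega)

/-- A computed bit can be put in front of a computed word. -/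
theorem Rl.consBit {i o : α → List Bool} {b : α → Bool} (hb : Rl i fun a => [b a]) (ho : Rl i o) :
    Rl i fun a => b a :: o a := by
  have h := (hb.fork ho).tail
  refine h.comp (Rl.branch ?_ ?_ ?_)
  · exact (Rl.id _).congr fun a => absurd a.2 (by simp [pairW])
  · refine (((Rl.id _).tail).cons false).congr fun a => ?_
    have := a.2
    simp [pairW] at this ⊢
    exact this
  · refine (((Rl.id _).tail).cons true).congr fun a => ?_
    have := a.2
    simp [pairW] at this ⊢
    exact this

/-- The `while` loop. -/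
theorem RealT.whileLoop {σ : Type} (e : σ → List Bool) (go : σ → Bool) (step : σ → σ)
    (hstep : Rl (fun s : {s // go s = true} => e s) fun s => go (step s) :: e (step s))
    (sz : α → ℕ) (init : α → σ) (N : α → ℕ) (hgo : ∀ a, ∀ j < N a, go (step^[j] (init a)) = true)
    (hstop : ∀ a, go (step^[N a] (init a)) = false) (hN : Bd sz N) (B : α → ℕ) (hB : Bd sz B)
    (hsz : ∀ a, ∀ j < N a, (e (step^[j] (init a))).length ≤ B a) :
    RealT sz (fun a => go (init a) :: e (init a)) fun a => e (step^[N a] (init a)) := by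
  obtain ⟨ι, _, _, p, T, ⟨q, hT⟩, hp⟩ := hstep
  let body : Bool → Prog (Option (ι ⊕ Fin 3)) := fun _ => .case none .skip fun b =>
    cond b (.seq (p.map (Option.map Sum.inl)) (.push (rg 0) true)) .skip
  have key : ∀ (M : ℕ) (n : ℕ) (s : σ), (∀ j < n, go (step^[j] s) = true) →
      go (step^[n] s) = false → (∀ j < n, (e (step^[j] s)).length ≤ M) →
      Run (.loop (rg 0) body) (S4 (go s :: e s) [true] [] []) (S4 (e (step^[n] s)) [] [] [])
        (n * (q.eval M + 4) + 4) := by
    intro M n
    induction n with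
    | zero =>
      intro s _ h2 _
      simp only [iterate_zero, id] at h2 ⊢
      rw [h2]
      refine Run.mono (Run.loopC (l := []) (b := true) (t := S4 (e s) [] [] []) (m := 2) rfl
        (Run.caseC (l := e s) (b := false) rfl ((Run.skip _).cast rfl ?_ le_rfl))
        (Run.loopN rfl)) ?_
      · simp
      · simp
    | succ n ih =>
      intro s h1 h2 h3
      have hg : go s = true := h1 0 (by omega)
      have e1 := (hp ⟨s, hg⟩).lift (κ := ι ⊕ Fin 3) Sum.inl_injective (S4 (e s) [] [] [])
        (fun _ => rfl) rfl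
      have e2 := ih (step s) (fun j hj => h1 (j + 1) (by omega)) h2
        fun j hj => h3 (j + 1) (by omega)
      have hT' : T ⟨s, hg⟩ ≤ q.eval M := (hT _).trans (eval_mono q (h3 0 (by omega)))
      rw [hg]
      refine Run.mono (Run.loopC (l := []) (b := true)
        (t := S4 (go (step s) :: e (step s)) [true] [] []) (m := T ⟨s, hg⟩ + 1 + 1 + 1) rfl
        (Run.caseC (l := e s) (b := true) rfl
          (((e1.cast ?_ rfl le_rfl).seq (Run.push _ _ _)).cast rfl ?_ le_rfl)) e2) ?_
      · simp
      · simp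
      · rw [Nat.succ_mul]; omega
  refine ⟨ι ⊕ Fin 3, inferInstance, inferInstance, .seq (.push (rg 0) true) (.loop (rg 0) body),
    fun a => N a * (q.eval (B a) + 4) + 6,
    (hN.mul ((hB.poly q).add (Bd.const _ _))).add (Bd.const _ _), fun a => ?_⟩
  rw [st_eq_S4, st_eq_S4]
  refine ((Run.push _ _ _).seq ((key (B a) (N a) (init a) (hgo a) (hstop a) (hsz a)).cast ?_ rfl
    le_rfl)).mono (by beta_reduce; omega)
  simp

/-- Realisable families are computed by polynomial-time Turing machines. -/
theorem Rl.toTM2 {ea : α → List Bool} {eb : β → List Bool} {f : α → β}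
    (h : Rl ea fun a => eb (f a)) : Nonempty (TM2ComputableInPolyTime ea eb f) := by
  obtain ⟨ι, _, _, p, T, ⟨q, hT⟩, hp⟩ := h
  refine ⟨⟨⟨machine p, Equiv.refl _, Equiv.refl _⟩, q + 1, fun a => ?_⟩⟩
  have h := (machine_run p _ _ _ ((hp a).mono (hT a))).some
  have e1 : List.map (Equiv.refl Bool).invFun (ea a) = ea a := List.map_id _
  have e2 : List.map (Equiv.refl Bool).invFun (eb (f a)) = eb (f a) := List.map_id _
  have e3 : (q + 1).eval (ea a).length = q.eval (ea a).length + 1 := by simp
  exact e1.symm ▸ e2.symm ▸ e3.symm ▸ h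

end Pool.Agent.Lib.helper21
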